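import Mathlib
import Pool.Agent.L7h19.FT.Stm
import Pool.Agent.L7h19.RP.Exp

/-!
# Project FT (helper19): S_CRT, the sum over the residue classes
-/

set_option autoImplicit false

namespace Pool.Agent.L7h46.FT

open Finset Polynomial Pool.Agent.W262.RK Pool.Agent.L7h19.RP Pool.Agent.L7h19.FT
open Pool.Agent.L7h19.RH (Q0)
open Pool.Agent.H474R2.PG (rho)

theorem s_CRT : S_CRT := by
  intro J _ _ f κ c z y hz hcz hnd s hs Φ
  classical
  have hT' : (∀ j, s j ∈ (PP z y).divisors) ∧ ∀ i j, i ≠ j → (s i).Coprime (s j) := by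
    unfold Tup at hs
    rw [mem_filter, Fintype.mem_piFinset] at hs
    exact hs
  have hsqj : ∀ j, Squarefree (s j) := fun j => dv_squarefree (hT'.1 j)
  set M := ∏ j, s j with hMd
  have hMsq : Squarefree M := by
    apply Finset.squarefree_prod_of_pairwise_isCoprime
    · intro i _ j _ hij
      exact Nat.coprime_iff_isRelPrime.1 (hT'.2 i j hij)
    · intro j _
      exact hsqj j
  have hm : ∏ p ∈ M.primeFactors, p = M := Nat.prod_primeFactors_of_squarefree hMsq
  have huniq : ∀ p : ℕ, p.Prime → ∀ i j, p ∣ s i → p ∣ s j → i = j := by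
    intro p hp i j hi hj
    by_contra hij
    have h1 := hT'.2 i j hij
    have h2 : p ∣ (s i).gcd (s j) := Nat.dvd_gcd hi hj
    rw [h1.gcd_eq_one] at h2
    exact hp.one_lt.ne' (Nat.dvd_one.1 h2)
  have hpfM : M.primeFactors = univ.biUnion (fun j => (s j).primeFactors) := by
    ext p
    rw [mem_biUnion]
    constructor
    · intro hp
      have hpp := Nat.prime_of_mem_primeFactors hp
      obtain ⟨j, _, hj⟩ := (hpp.prime.dvd_finsetProd_iff _).1 (Nat.dvd_of_mem_primeFactors hp)
      exact ⟨j, mem_univ _, Nat.mem_primeFactors.2 ⟨hpp, hj, (hsqj j).ne_zero⟩⟩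
    · rintro ⟨j, _, hj⟩
      exact Nat.mem_primeFactors.2 ⟨Nat.prime_of_mem_primeFactors hj,
        (Nat.dvd_of_mem_primeFactors hj).trans (dvd_prod_of_mem _ (mem_univ j)), hMsq.ne_zero⟩
  have hdisj : ((univ : Finset J) : Set J).PairwiseDisjoint (fun j => (s j).primeFactors) := by
    intro i _ j _ hij
    exact (hT'.2 i j hij).disjoint_primeFactors
  have hprod : ∀ h : ℕ → ℝ, ∏ p ∈ M.primeFactors, h p = ∏ j, ∏ p ∈ (s j).primeFactors, h p := by
    intro h
    rw [hpfM, Finset.prod_biUnion hdisj]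
  have hiff : ∀ r : ℕ, (∀ j, (s j : ℤ) ∣ (f j).eval (r : ℤ)) ↔
      ∀ p ∈ M.primeFactors, ∀ j, p ∣ s j → (p : ℤ) ∣ (f j).eval (r : ℤ) := by
    intro r
    constructor
    · intro h p _ j hj
      exact (Int.natCast_dvd_natCast.2 hj).trans (h j)
    · intro h j
      have h1 : (s j : ℤ) = ∏ p ∈ (s j).primeFactors, (p : ℤ) := by
        conv_lhs => rw [← Nat.prod_primeFactors_of_squarefree (hsqj j)]
        push_cast
        rfl
      rw [h1]
      refine Finset.prod_dvd_of_coprime ?_ ?_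
      · intro p hp q hq hpq
        exact Nat.isCoprime_iff_coprime.2 ((Nat.coprime_primes (Nat.prime_of_mem_primeFactors hp)
          (Nat.prime_of_mem_primeFactors hq)).2 hpq)
      · intro p hp
        exact h p (Nat.mem_primeFactors.2 ⟨Nat.prime_of_mem_primeFactors hp,
          (Nat.dvd_of_mem_primeFactors hp).trans (dvd_prod_of_mem _ (mem_univ j)),
          hMsq.ne_zero⟩) j (Nat.dvd_of_mem_primeFactors hp)
  -- the local factor
  set g : Finset ℕ → ℕ → ℕ → ℝ := fun E p r =>
    if ((∀ j, p ∣ s j → (p : ℤ) ∣ (f j).eval (r : ℤ)) ∧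
      ((∃ j, p ∣ s j ∧ jacobiSym ((κ j).eval (r : ℤ)) p = -1) ↔ p ∈ E)) then 1 else 0 with hg
  have hgmod : ∀ E p r, g E p (r % p) = g E p r := by
    intro E p r
    have hmod := mod_self r p
    have h3 : (∀ j, p ∣ s j → (p : ℤ) ∣ (f j).eval ((r % p : ℕ) : ℤ)) ↔
        ∀ j, p ∣ s j → (p : ℤ) ∣ (f j).eval (r : ℤ) := by
      refine forall_congr' fun j => forall_congr' fun _ => ?_
      exact (eval_mod (f j) hmod).dvd_iff
    have h4 : (∃ j, p ∣ s j ∧ jacobiSym ((κ j).eval ((r % p : ℕ) : ℤ)) p = -1) ↔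
        (∃ j, p ∣ s j ∧ jacobiSym ((κ j).eval (r : ℤ)) p = -1) := by
      refine exists_congr fun j => and_congr_right fun _ => ?_
      rw [jacobiSym.mod_left' (eval_mod (κ j) hmod)]
    simp only [hg, h3, h4]
  -- the number of the classes with a given pattern
  have hcount : ∀ E ∈ (Q0 s).powerset,
      (((Rs f s).filter (fun r : ℕ => nF κ s (r : ℤ) = E)).card : ℝ) =
        ∏ p ∈ M.primeFactors, ∑ ν ∈ range p, g E p ν := by
    intro E hE
    rw [mem_powerset] at hE
    have hQ : Q0 s = M.primeFactors := rfl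
    rw [← sum_crt_prod M.primeFactors (fun p hp => Nat.prime_of_mem_primeFactors hp) (g E)
      (fun p _ r => hgmod E p r), hm]
    unfold Rs
    rw [Finset.filter_filter, Finset.card_eq_sum_ones, Finset.sum_filter]
    push_cast
    refine Finset.sum_congr rfl fun r _ => ?_
    have hnF : nF κ s (r : ℤ) = E ↔ ∀ p ∈ M.primeFactors,
        ((∃ j, p ∣ s j ∧ jacobiSym ((κ j).eval (r : ℤ)) p = -1) ↔ p ∈ E) := by
      unfold nF
      rw [hQ]
      constructor
      · intro h p hp
        rw [← h, mem_filter]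
        exact ⟨fun h' => ⟨hp, h'⟩, fun h' => h'.2⟩
      · intro h
        ext p
        rw [mem_filter]
        constructor
        · rintro ⟨a, b⟩
          exact (h p a).1 b
        · intro a
          have hp : p ∈ M.primeFactors := by
            rw [← hQ]; exact hE a
          exact ⟨hp, (h p hp).2 a⟩
    by_cases hr : (∀ j, (s j : ℤ) ∣ (f j).eval (r : ℤ)) ∧ nF κ s (r : ℤ) = E
    · rw [if_pos hr]
      symm
      refine Finset.prod_eq_one fun p hp => ?_
      simp only [hg]
      rw [if_pos ⟨(hiff r).1 hr.1 p hp, hnF.1 hr.2 p hp⟩]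
    · rw [if_neg hr]
      symm
      have : ∃ p ∈ M.primeFactors, ¬ ((∀ j, p ∣ s j → (p : ℤ) ∣ (f j).eval (r : ℤ)) ∧
          ((∃ j, p ∣ s j ∧ jacobiSym ((κ j).eval (r : ℤ)) p = -1) ↔ p ∈ E)) := by
        by_contra hcon
        push Not at hcon
        apply hr
        refine ⟨(hiff r).2 fun p hp => ((hcon p hp).1), hnF.2 fun p hp => (hcon p hp).2⟩
      obtain ⟨p, hp, hn⟩ := this
      refine Finset.prod_eq_zero hp ?_
      simp only [hg]
      rw [if_neg hn]
  -- the local identity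
  have hloc : ∀ E : Finset ℕ, ∀ j, ∀ p ∈ (s j).primeFactors,
      (∑ ν ∈ range p, g E p ν) * (1 / ((p : ℝ) - c)) =
        if p ∈ E then bP f κ c j p else aP f κ c j p := by
    intro E j p hp
    have hpp := Nat.prime_of_mem_primeFactors hp
    have hpd := Nat.dvd_of_mem_primeFactors hp
    have hzp : z < p := (dv_prime (hT'.1 j) hpp hpd).1
    have hforall : ∀ ν : ℕ, (∀ l, p ∣ s l → (p : ℤ) ∣ (f l).eval (ν : ℤ)) ↔
        (p : ℤ) ∣ (f j).eval (ν : ℤ) := by
      intro ν
      constructor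
      · intro h; exact h j hpd
      · intro h l hl
        rw [huniq p hpp l j hl hpd]
        exact h
    have hexi : ∀ ν : ℕ, (∃ l, p ∣ s l ∧ jacobiSym ((κ l).eval (ν : ℤ)) p = -1) ↔
        jacobiSym ((κ j).eval (ν : ℤ)) p = -1 := by
      intro ν
      constructor
      · rintro ⟨l, hl, h⟩
        rw [huniq p hpp l j hl hpd] at h
        exact h
      · intro h; exact ⟨j, hpd, h⟩
    have hJ : ∀ ν : ℕ, (p : ℤ) ∣ (f j).eval (ν : ℤ) →
        jacobiSym ((κ j).eval (ν : ℤ)) p = 1 ∨ jacobiSym ((κ j).eval (ν : ℤ)) p = -1 := by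
      intro ν hν
      have h1 := hnd p hpp hzp j (ν : ℤ) hν
      apply jacobiSym.eq_one_or_neg_one
      rw [Int.gcd_comm]
      have := (Int.isCoprime_iff_gcd_eq_one (m := (p : ℤ)) (n := (κ j).eval (ν : ℤ))).1
        ((Nat.prime_iff_prime_int.1 hpp).coprime_iff_not_dvd.2 h1)
      exact this
    have hsum : ∑ ν ∈ range p, g E p ν =
        ∑ ν ∈ (range p).filter (fun ν : ℕ => (p : ℤ) ∣ (f j).eval (ν : ℤ)),
          (1 + (if p ∈ E then -1 else 1) * Jr ((κ j).eval (ν : ℤ)) p) / 2 := by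
      rw [Finset.sum_filter]
      refine Finset.sum_congr rfl fun ν _ => ?_
      simp only [hg, hforall ν, hexi ν]
      by_cases hν : (p : ℤ) ∣ (f j).eval (ν : ℤ)
      · rw [if_pos hν]
        unfold Jr
        rcases hJ ν hν with h | h <;> by_cases hE : p ∈ E <;> rw [h] <;> simp [hν, hE]
      · simp [hν]
    rw [hsum]
    unfold aP bP gaw bw rho
    rw [Finset.sum_congr rfl (g := fun ν : ℕ => (1 / 2 : ℝ) + (if p ∈ E then -1 else 1) / 2 *
      Jr ((κ j).eval (ν : ℤ)) p) (fun ν _ => by ring), Finset.sum_add_distrib,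
      ← Finset.mul_sum, Finset.sum_const, nsmul_eq_mul]
    by_cases hE : p ∈ E
    · rw [if_pos hE, if_pos hE]
      ring
    · rw [if_neg hE, if_neg hE]
      ring
  -- assembly
  unfold avE
  have hfib : ∑ r ∈ Rs f s, Φ (nF κ s (r : ℤ)) = ∑ E ∈ (Q0 s).powerset,
      Φ E * (((Rs f s).filter (fun r : ℕ => nF κ s (r : ℤ) = E)).card : ℝ) := by
    rw [← Finset.sum_fiberwise_of_maps_to (s := Rs f s) (t := (Q0 s).powerset)
      (g := fun r : ℕ => nF κ s (r : ℤ)) (fun r _ => by
        rw [mem_powerset]; unfold nF; exact Finset.filter_subset _ _)]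
    refine Finset.sum_congr rfl fun E _ => ?_
    rw [Finset.sum_congr rfl (g := fun _ => Φ E) (fun r hr => by rw [(mem_filter.1 hr).2]),
      Finset.sum_const, nsmul_eq_mul, mul_comm]
  rw [hfib, Finset.sum_mul]
  refine Finset.sum_congr rfl fun E hE => ?_
  rw [hcount E hE, mul_assoc]
  congr 1
  unfold WE gw
  rw [hprod, ← Finset.prod_mul_distrib]
  refine Finset.prod_congr rfl fun j _ => ?_
  rw [← Finset.prod_mul_distrib]
  exact Finset.prod_congr rfl fun p hp => hloc E j p hp

end Pool.Agent.L7h46.FT
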