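import Mathlib
import Pool.Agent.L7h60.IS.Tk
import Pool.Agent.L7h19.FT.Stm3
import Pool.Agent.L7h19.RP.Bez

/-!
# Project FT (helper19): the inequality of Turan and Kubilius for sets of residues in short intervals

Adapted from `Pool/Agent/L7h60/IS/Tk.lean`.
-/

set_option autoImplicit false

namespace Pool.Agent.L7h46.FT

open Finset Polynomial
open Pool.Agent.L7h60.IS (rs rs_modEq rs_lt rs_eq_iff cnt1)

/-- the elements of the interval in one of the classes -/
noncomputable def Zt (T : ℕ → Finset ℕ) (u v : ℤ) (p : ℕ) : Finset ℤ :=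
  (Icc u v).filter (fun t : ℤ => rs p t ∈ T p)

lemma cntT (T : ℕ → Finset ℕ) (p : ℕ) (hp : 0 < p) (hT : T p ⊆ range p) (u v : ℤ) (huv : u ≤ v) :
    |((Zt T u v p).card : ℝ) - ((T p).card : ℝ) * (((v : ℝ) - u + 1) / p)| ≤ (T p).card := by
  classical
  have h1 : (Zt T u v p).card = ∑ a ∈ T p, ((Zt T u v p).filter (fun t => rs p t = a)).card :=
    card_eq_sum_card_fiberwise fun t ht => (mem_filter.1 ht).2
  have h2 : ∀ a ∈ T p, (Zt T u v p).filter (fun t => rs p t = a) =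
      (Icc u v).filter (fun t : ℤ => t ≡ (a : ℤ) [ZMOD (p : ℤ)]) := by
    intro a ha
    have hap := mem_range.1 (hT ha)
    ext t
    rw [Zt, mem_filter, mem_filter, mem_filter]
    constructor
    · rintro ⟨⟨h3, h4⟩, h5⟩
      exact ⟨h3, (rs_eq_iff hp t hap).1 h5⟩
    · rintro ⟨h3, h4⟩
      have h5 := (rs_eq_iff hp t hap).2 h4
      exact ⟨⟨h3, by rw [h5]; exact ha⟩, h5⟩
  have h3 : ((T p).card : ℝ) = ∑ a ∈ T p, (1 : ℝ) := by
    rw [sum_const, nsmul_eq_mul, mul_one]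
  rw [h1, sum_congr rfl (fun a ha => by rw [h2 a ha])]
  push_cast
  rw [h3, sum_mul, ← sum_sub_distrib]
  refine (abs_sum_le_sum_abs _ _).trans (sum_le_sum fun a ha => ?_)
  rw [one_mul]
  exact cnt1 p hp a u v huv

lemma cntTT (T : ℕ → Finset ℕ) (p q : ℕ) (hp : p.Prime) (hq : q.Prime) (hpq : p ≠ q)
    (hTp : T p ⊆ range p) (hTq : T q ⊆ range q) (u v : ℤ) (huv : u ≤ v) :
    ((Zt T u v p ∩ Zt T u v q).card : ℝ) ≤
      ((T p).card : ℝ) * ((T q).card : ℝ) * (((v : ℝ) - u + 1) / (p * q) + 1) := by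
  classical
  have hmaps : ∀ t ∈ Zt T u v p ∩ Zt T u v q, (rs p t, rs q t) ∈ T p ×ˢ T q := by
    intro t ht
    rw [mem_inter, Zt, Zt, mem_filter, mem_filter] at ht
    rw [mem_product]
    exact ⟨ht.1.2, ht.2.2⟩
  have h1 : (Zt T u v p ∩ Zt T u v q).card =
      ∑ a ∈ T p ×ˢ T q, ((Zt T u v p ∩ Zt T u v q).filter (fun t => (rs p t, rs q t) = a)).card :=
    card_eq_sum_card_fiberwise hmaps
  have hN : (0 : ℝ) ≤ ((v : ℝ) - u + 1) := by
    have : (u : ℝ) ≤ v := by exact_mod_cast huv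
    linarith
  have hc : IsCoprime (p : ℤ) (q : ℤ) :=
    Nat.isCoprime_iff_coprime.2 ((Nat.coprime_primes hp hq).2 hpq)
  have h2 : ∀ a ∈ T p ×ˢ T q,
      (((Zt T u v p ∩ Zt T u v q).filter (fun t => (rs p t, rs q t) = a)).card : ℝ) ≤
        ((v : ℝ) - u + 1) / (p * q) + 1 := by
    intro a ha
    rw [mem_product] at ha
    have ha1 := mem_range.1 (hTp ha.1)
    have ha2 := mem_range.1 (hTq ha.2)
    rcases ((Zt T u v p ∩ Zt T u v q).filter (fun t => (rs p t, rs q t) = a)).eq_empty_or_nonempty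
      with h0 | ⟨t₀, ht₀⟩
    · rw [h0, card_empty]
      push_cast
      positivity
    · rw [mem_filter, Prod.ext_iff] at ht₀
      have hsub : (Zt T u v p ∩ Zt T u v q).filter (fun t => (rs p t, rs q t) = a) ⊆
          (Icc u v).filter (fun t : ℤ => t ≡ t₀ [ZMOD ((p * q : ℕ) : ℤ)]) := by
        intro t ht
        rw [mem_filter, mem_inter, Zt, Zt, mem_filter, mem_filter, Prod.ext_iff] at ht
        rw [mem_filter]
        refine ⟨ht.1.1.1, ?_⟩
        have h3 : t ≡ t₀ [ZMOD (p : ℤ)] :=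
          ((rs_eq_iff hp.pos t ha1).1 ht.2.1).trans ((rs_eq_iff hp.pos t₀ ha1).1 ht₀.2.1).symm
        have h4 : t ≡ t₀ [ZMOD (q : ℤ)] :=
          ((rs_eq_iff hq.pos t ha2).1 ht.2.2).trans ((rs_eq_iff hq.pos t₀ ha2).1 ht₀.2.2).symm
        push_cast
        rw [Int.modEq_iff_dvd] at h3 h4 ⊢
        exact hc.mul_dvd h3 h4
      have h5 := cnt1 (p * q) (Nat.mul_pos hp.pos hq.pos) t₀ u v huv
      have h6 : (((Zt T u v p ∩ Zt T u v q).filter (fun t => (rs p t, rs q t) = a)).card : ℝ) ≤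
          (((Icc u v).filter (fun t : ℤ => t ≡ t₀ [ZMOD ((p * q : ℕ) : ℤ)])).card : ℝ) := by
        exact_mod_cast card_le_card hsub
      have h7 := (abs_le.1 h5).2
      push_cast at h7
      push_cast at h6
      linarith
  rw [h1]
  push_cast
  refine (sum_le_sum h2).trans ?_
  rw [sum_const, card_product, nsmul_eq_mul]
  push_cast
  exact le_rfl

/-- the number of the primes of `P` for which `t` is in one of the classes -/
noncomputable def At (P : Finset ℕ) (T : ℕ → Finset ℕ) (t : ℤ) : ℝ :=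
  ∑ p ∈ P, if rs p t ∈ T p then (1 : ℝ) else 0

lemma fin_step {M N R S1 S2 : ℝ} (hM0 : 0 ≤ M) (h1 : N * M - R ≤ S1)
    (h2 : S2 ≤ N * M ^ 2 + R ^ 2 + N * M + R) :
    S2 - 2 * M * S1 + N * M ^ 2 ≤ N * M + R + R ^ 2 + 2 * M * R := by
  have h8 : M * (N * M - R) ≤ M * S1 := mul_le_mul_of_nonneg_left h1 hM0
  nlinarith

/-- the second moment -/
lemma secondT (P : Finset ℕ) (T : ℕ → Finset ℕ) (hP : ∀ p ∈ P, p.Prime)
    (hT : ∀ p ∈ P, T p ⊆ range p) (u v : ℤ) (huv : u ≤ v) :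
    ∑ t ∈ Icc u v, (At P T t - ∑ p ∈ P, ((T p).card : ℝ) / p) ^ 2 ≤
      ((v : ℝ) - u + 1) * (∑ p ∈ P, ((T p).card : ℝ) / p) + (∑ p ∈ P, ((T p).card : ℝ)) +
        (∑ p ∈ P, ((T p).card : ℝ)) ^ 2 +
        2 * (∑ p ∈ P, ((T p).card : ℝ) / p) * ∑ p ∈ P, ((T p).card : ℝ) := by
  classical
  set M := ∑ p ∈ P, ((T p).card : ℝ) / p with hM
  set R := ∑ p ∈ P, ((T p).card : ℝ) with hR
  set N : ℝ := (v : ℝ) - u + 1 with hN
  have hN0 : 0 ≤ N := by
    have : (u : ℝ) ≤ v := by exact_mod_cast huv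
    rw [hN]
    linarith
  have hM0 : 0 ≤ M := by
    rw [hM]
    exact sum_nonneg fun p _ => by positivity
  have hcardN : ((Icc u v).card : ℝ) = N := by
    rw [Int.card_Icc]
    have : (((v + 1 - u).toNat : ℕ) : ℤ) = v + 1 - u := Int.toNat_of_nonneg (by omega)
    have h2 : (((v + 1 - u).toNat : ℕ) : ℝ) = (((v + 1 - u : ℤ)) : ℝ) := by exact_mod_cast this
    rw [h2, hN]
    push_cast
    ring
  -- first moment
  have hS1 : ∑ t ∈ Icc u v, At P T t = ∑ p ∈ P, ((Zt T u v p).card : ℝ) := by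
    unfold At
    rw [sum_comm]
    refine sum_congr rfl fun p _ => ?_
    rw [Zt, ← sum_filter, sum_const, nsmul_eq_mul, mul_one]
  have hS1l : N * M - R ≤ ∑ t ∈ Icc u v, At P T t := by
    rw [hS1, hM, hR, mul_sum, ← sum_sub_distrib]
    refine sum_le_sum fun p hp => ?_
    have h1 := (abs_le.1 (cntT T p (hP p hp).pos (hT p hp) u v huv)).1
    rw [← hN] at h1
    have h2 : N * (((T p).card : ℝ) / p) = ((T p).card : ℝ) * (N / p) := by ring
    rw [h2]
    linarith
  have hS2 : ∑ t ∈ Icc u v, At P T t ^ 2 =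
      ∑ p ∈ P, ∑ q ∈ P, ((Zt T u v p ∩ Zt T u v q).card : ℝ) := by
    have h1 : ∀ t, At P T t ^ 2 = ∑ p ∈ P, ∑ q ∈ P,
        (if rs p t ∈ T p then (1 : ℝ) else 0) * (if rs q t ∈ T q then (1 : ℝ) else 0) := by
      intro t
      rw [sq]
      unfold At
      rw [sum_mul_sum]
    rw [sum_congr rfl (fun t _ => h1 t), sum_comm]
    refine sum_congr rfl fun p _ => ?_
    rw [sum_comm]
    refine sum_congr rfl fun q _ => ?_
    have h2 : Zt T u v p ∩ Zt T u v q =
        (Icc u v).filter (fun t : ℤ => rs p t ∈ T p ∧ rs q t ∈ T q) := by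
      ext t
      rw [mem_inter, Zt, Zt, mem_filter, mem_filter, mem_filter]
      tauto
    rw [h2, card_eq_sum_ones, Nat.cast_sum, sum_filter]
    refine sum_congr rfl fun t ht => ?_
    by_cases h3 : rs p t ∈ T p <;> by_cases h4 : rs q t ∈ T q <;> simp [h3, h4]
  have hS2u : ∑ t ∈ Icc u v, At P T t ^ 2 ≤ N * M ^ 2 + R ^ 2 + N * M + R := by
    rw [hS2]
    have h1 : ∀ p ∈ P, ∀ q ∈ P, ((Zt T u v p ∩ Zt T u v q).card : ℝ) ≤
        ((T p).card : ℝ) * ((T q).card : ℝ) * (N / (p * q) + 1) +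
          if p = q then ((T p).card : ℝ) * (N / p) + (T p).card else 0 := by
      intro p hp q hq
      by_cases hpq : p = q
      · subst hpq
        rw [if_pos rfl, inter_self]
        have h2 := (abs_le.1 (cntT T p (hP p hp).pos (hT p hp) u v huv)).2
        rw [← hN] at h2
        have h3 : 0 ≤ ((T p).card : ℝ) * ((T p).card : ℝ) * (N / (p * p) + 1) := by positivity
        linarith
      · rw [if_neg hpq, add_zero]
        exact cntTT T p q (hP p hp) (hP q hq) hpq (hT p hp) (hT q hq) u v huv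
    refine (sum_le_sum fun p hp => sum_le_sum fun q hq => h1 p hp q hq).trans ?_
    have h2 : ∑ p ∈ P, ∑ q ∈ P, (((T p).card : ℝ) * ((T q).card : ℝ) * (N / (p * q) + 1) +
          if p = q then ((T p).card : ℝ) * (N / p) + (T p).card else 0) =
        N * M ^ 2 + R ^ 2 + (N * M + R) := by
      simp only [sum_add_distrib]
      have h3 : ∑ p ∈ P, ∑ q ∈ P, ((T p).card : ℝ) * ((T q).card : ℝ) * (N / (p * q) + 1) =
          N * M ^ 2 + R ^ 2 := by
        rw [hM, hR, sq, sq, sum_mul_sum, sum_mul_sum, mul_sum, ← sum_add_distrib]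
        refine sum_congr rfl fun p _ => ?_
        rw [mul_sum, ← sum_add_distrib]
        refine sum_congr rfl fun q _ => ?_
        rw [mul_add, mul_one]
        congr 1
        rw [div_mul_div_comm]
        ring
      have h4 : ∑ p ∈ P, ∑ q ∈ P,
          (if p = q then ((T p).card : ℝ) * (N / p) + (T p).card else 0) = N * M + R := by
        have h5 : ∀ p ∈ P, ∑ q ∈ P,
            (if p = q then ((T p).card : ℝ) * (N / p) + (T p).card else 0) =
              ((T p).card : ℝ) * (N / p) + (T p).card := by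
          intro p hp
          rw [sum_ite_eq, if_pos hp]
        rw [sum_congr rfl h5, sum_add_distrib, hM, mul_sum, hR]
        congr 1
        refine sum_congr rfl fun p _ => ?_
        ring
      rw [h3, h4]
    rw [h2]
    linarith
  have hexp : ∑ t ∈ Icc u v, (At P T t - M) ^ 2 =
      ∑ t ∈ Icc u v, At P T t ^ 2 - 2 * M * ∑ t ∈ Icc u v, At P T t + N * M ^ 2 := by
    have h1 : ∀ t ∈ Icc u v, (At P T t - M) ^ 2 = At P T t ^ 2 - 2 * M * At P T t + M ^ 2 :=
      fun t _ => by ring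
    rw [sum_congr rfl h1, sum_add_distrib, sum_sub_distrib, ← mul_sum, sum_const, nsmul_eq_mul,
      hcardN]
  rw [hexp]
  exact fin_step hM0 hS1l hS2u

end Pool.Agent.L7h46.FT
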