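import Mathlib
import Pool.Agent.L7h46.FT.Tkg

/-!
# Project FT (helper19): S_TKV, the second moment of the number of the split primes
-/

set_option autoImplicit false

namespace Pool.Agent.L7h46.FT

open Finset Polynomial Pool.Agent.W262.RK Pool.Agent.L7h19.RP Pool.Agent.L7h19.FT
open Pool.Agent.L7h60.IS (rs rs_modEq rs_lt rs_eq_iff cnt1 dvd_eval_iff eval_bound second_step)
open Pool.Agent.H474R2.PG (rho PR Sg)

/-- the roots at which `κ` is a nonzero square -/
noncomputable def Tk (f κ : ℤ[X]) (p : ℕ) : Finset ℕ :=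
  (range p).filter (fun ν : ℕ => (p : ℤ) ∣ f.eval (ν : ℤ) ∧ jacobiSym (κ.eval (ν : ℤ)) p = 1)

lemma Tk_sub (f κ : ℤ[X]) (p : ℕ) : Tk f κ p ⊆ range p := Finset.filter_subset _ _

lemma Tk_card_le (f κ : ℤ[X]) (p : ℕ) : (Tk f κ p).card ≤ rho f p := by
  unfold Tk rho
  apply Finset.card_le_card
  intro ν hν
  rw [mem_filter] at hν ⊢
  exact ⟨hν.1, hν.2.1⟩

lemma rs_mem_Tk (f κ : ℤ[X]) {p : ℕ} (hp : 0 < p) (t : ℤ) :
    rs p t ∈ Tk f κ p ↔ (p : ℤ) ∣ f.eval t ∧ jacobiSym (κ.eval t) p = 1 := by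
  unfold Tk
  rw [mem_filter, mem_range]
  have h1 := dvd_eval_iff f p (rs_modEq hp t)
  have h2 : jacobiSym (κ.eval ((rs p t : ℕ) : ℤ)) p = jacobiSym (κ.eval t) p := by
    apply jacobiSym.mod_left'
    have h3 : (((rs p t : ℕ) : ℤ) - t) ∣ κ.eval ((rs p t : ℕ) : ℤ) - κ.eval t :=
      κ.sub_dvd_eval_sub _ _
    exact (Int.modEq_iff_dvd.2 (((Int.modEq_iff_dvd.1 (rs_modEq hp t).symm)).trans h3)).symm
  rw [h1, h2]
  constructor
  · rintro ⟨_, h⟩
    exact h
  · intro h
    exact ⟨rs_lt hp t, h⟩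

lemma big_pf {n : ℕ} (hn : n ≠ 0) {w : ℝ} (hw : 1 ≤ w) :
    ((n.primeFactors.filter (fun p : ℕ => ¬ (p : ℝ) ≤ w)).card : ℝ) * Real.log w ≤
      Real.log (n : ℝ) := by
  rw [← Real.log_pow]
  apply Real.log_le_log (by positivity)
  have h1 : w ^ (n.primeFactors.filter (fun p : ℕ => ¬ (p : ℝ) ≤ w)).card ≤
      ∏ p ∈ n.primeFactors.filter (fun p : ℕ => ¬ (p : ℝ) ≤ w), (p : ℝ) := by
    rw [← prod_const]
    refine prod_le_prod (fun p _ => by linarith) fun p hp => ?_
    exact (not_le.1 (mem_filter.1 hp).2).le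
  refine h1.trans ?_
  have h2 : ∏ p ∈ n.primeFactors.filter (fun p : ℕ => ¬ (p : ℝ) ≤ w), p ∣ n :=
    (prod_dvd_prod_of_subset _ _ _ (filter_subset _ _)).trans (Nat.prod_primeFactors_dvd n)
  rw [← Nat.cast_prod]
  exact Nat.cast_le.2 (Nat.le_of_dvd (Nat.pos_of_ne_zero hn) h2)

/-- the primes of `(z0, w]` -/
noncomputable def Pz (z0 : ℕ) (w : ℝ) : Finset ℕ := (PR w).filter (fun p => z0 < p)

lemma At_eq (f κ : ℤ[X]) (z0 : ℕ) (w : ℝ) (t : ℤ) :
    At (Pz z0 w) (Tk f κ) t = (((Pz z0 w).filter (fun p : ℕ => (p : ℤ) ∣ f.eval t ∧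
      jacobiSym (κ.eval t) p = 1)).card : ℝ) := by
  classical
  unfold At
  rw [Finset.card_eq_sum_ones, Finset.sum_filter]
  push_cast
  refine Finset.sum_congr rfl fun p hp => ?_
  have hpp : 0 < p := (Finset.mem_filter.1 (Finset.mem_filter.1 hp).1).2.pos
  simp only [rs_mem_Tk f κ hpp t]

/-- the small and the large primes -/
lemma sp_At (f κ : ℤ[X]) {z0 : ℕ} (hz : 2 ≤ z0) {w : ℝ} (hw : 1 ≤ w) {t : ℤ}
    (ht : f.eval t ≠ 0) :
    At (Pz z0 w) (Tk f κ) t ≤ ((sp (κ.eval t) (f.eval t) : ℕ) : ℝ) ∧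
      ((sp (κ.eval t) (f.eval t) : ℕ) : ℝ) ≤ At (Pz z0 w) (Tk f κ) t + z0 +
        (((f.eval t).natAbs.primeFactors.filter (fun p : ℕ => ¬ (p : ℝ) ≤ w)).card : ℝ) := by
  classical
  rw [At_eq]
  have hn0 : (f.eval t).natAbs ≠ 0 := Int.natAbs_ne_zero.2 ht
  constructor
  · unfold sp
    apply Nat.cast_le.2
    apply Finset.card_le_card
    intro p hp
    rw [mem_filter, Pz, mem_filter, PR, mem_filter] at hp
    obtain ⟨⟨⟨_, hpp⟩, hz2⟩, hd, hj⟩ := hp
    rw [mem_filter, Nat.mem_primeFactors]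
    exact ⟨⟨hpp, Int.natCast_dvd.1 hd, hn0⟩, by omega, hj⟩
  · unfold sp
    have hsub : (f.eval t).natAbs.primeFactors.filter
        (fun p => p ≠ 2 ∧ jacobiSym (κ.eval t) p = 1) ⊆
        ((Pz z0 w).filter (fun p : ℕ => (p : ℤ) ∣ f.eval t ∧ jacobiSym (κ.eval t) p = 1) ∪
          Icc 1 z0) ∪ (f.eval t).natAbs.primeFactors.filter (fun p : ℕ => ¬ (p : ℝ) ≤ w) := by
      intro p hp
      rw [mem_filter] at hp
      obtain ⟨h1, h2, h3⟩ := hp
      obtain ⟨hpp, hpd, _⟩ := Nat.mem_primeFactors.1 h1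
      by_cases hpw : (p : ℝ) ≤ w
      · by_cases hpz : p ≤ z0
        · apply mem_union_left
          apply mem_union_right
          rw [mem_Icc]
          exact ⟨hpp.one_lt.le, hpz⟩
        · apply mem_union_left
          apply mem_union_left
          rw [mem_filter, Pz, mem_filter, PR, mem_filter, mem_Icc]
          exact ⟨⟨⟨⟨hpp.one_lt.le, (Nat.le_floor_iff (by linarith)).2 hpw⟩, hpp⟩, by omega⟩,
            Int.natCast_dvd.2 hpd, h3⟩
      · apply mem_union_right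
        rw [mem_filter]
        exact ⟨h1, hpw⟩
    have h4 := (card_le_card hsub).trans ((card_union_le _ _).trans
      (Nat.add_le_add_right (card_union_le _ _) _))
    rw [Nat.card_Icc, Nat.add_sub_cancel] at h4
    exact_mod_cast h4

lemma sq_step {a b e : ℝ} (hb : |b| ≤ e) : (a + b) ^ 2 ≤ 2 * a ^ 2 + 2 * e ^ 2 := by
  have h1 : b ^ 2 ≤ e ^ 2 := by
    rw [← sq_abs b]
    exact pow_le_pow_left₀ (abs_nonneg _) hb 2
  nlinarith [sq_nonneg (a - b)]

theorem tk_main (f κ : ℤ[X]) (hf : Irreducible f) (hd : 0 < f.natDegree) (z0 : ℕ) (hz : 2 ≤ z0)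
    (θ C' : ℝ) (hθ0 : 0 ≤ θ) (hθ1 : θ ≤ 1) (hC' : 0 ≤ C')
    (hM : ∀ w : ℝ, 3 ≤ w → |∑ p ∈ Pz z0 w, ((Tk f κ p).card : ℝ) / p -
      θ * Real.log (Real.log w)| ≤ C') (ε : ℝ) (hε : 0 < ε) :
    ∃ C : ℝ, ∀ (X : ℕ) (u v : ℤ), 3 ≤ X → u.natAbs ≤ X → v.natAbs ≤ X →
      (X : ℝ) ^ ε ≤ (v : ℝ) - u →
      ∑ t ∈ (Icc u v).filter (fun t : ℤ => f.eval t ≠ 0),
        (((sp (κ.eval t) (f.eval t) : ℕ) : ℝ) - θ * Real.log (Real.log X)) ^ 2 ≤
        C * ((v : ℝ) - u) * Real.log (Real.log X) := by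
  classical
  have hf0 : f ≠ 0 := hf.ne_zero
  obtain ⟨C0, hC00, hC0⟩ := Pool.Agent.H474R2.GE.mertens_rho f hf hd
  obtain ⟨B, hB⟩ := Pool.Agent.H474R2.PG.rho_le f hf0
  obtain ⟨K, hK1, hK⟩ := eval_bound f
  set D := f.natDegree with hD
  set k : ℝ := (D : ℝ) + B + 1 with hk
  set C1 : ℝ := Real.log 2 + |Real.log (ε / 2)| with hC1
  set l3 : ℝ := Real.log (Real.log 3) with hl3
  have hlog3 : 1 < Real.log 3 := by
    rw [Real.lt_log_iff_exp_lt (by norm_num)]
    have := Real.exp_one_lt_d9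
    linarith
  have hl30 : 0 < l3 := Real.log_pos hlog3
  have hlog2 : 0 < Real.log 2 := Real.log_pos (by norm_num)
  have hC10 : 0 ≤ C1 := by positivity
  set C2 : ℝ := 2 * (C1 + C0) + 9 * k + 9 * k ^ 2 + 18 * k * (1 + C0) with hC2
  have hk1 : 1 ≤ k := by
    rw [hk]
    have : (0 : ℝ) ≤ (D : ℝ) + B := by positivity
    linarith
  have hC20 : 0 ≤ C2 := by positivity
  set C5 : ℝ := (Real.log K + D) / (ε / 2) with hC5
  have hlogK : 0 ≤ Real.log K := Real.log_nonneg hK1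
  have hC50 : 0 ≤ C5 := by positivity
  set C6 : ℝ := (C' + C1) + (z0 + C5) with hC6
  have hC60 : 0 ≤ C6 := by positivity
  refine ⟨4 + (2 * C2 + 4 * C6 ^ 2) / l3, fun X u v hX hu hv hL => ?_⟩
  have hX3 : (3 : ℝ) ≤ X := by exact_mod_cast hX
  have hlogX : 1 < Real.log X := hlog3.trans_le (Real.log_le_log (by norm_num) hX3)
  set l : ℝ := Real.log (Real.log X) with hl
  have hll : l3 ≤ l := Real.log_le_log (by linarith) (Real.log_le_log (by norm_num) hX3)
  have hl0 : 0 < l := hl30.trans_le hll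
  set L : ℝ := (v : ℝ) - u with hLdef
  have hXe : 1 ≤ (X : ℝ) ^ ε := Real.one_le_rpow (by linarith) hε.le
  have hL1 : 1 ≤ L := hXe.trans hL
  have huv : u ≤ v := by
    have : (u : ℝ) ≤ v := by linarith
    exact_mod_cast this
  have hL2 : L ≤ 2 * X := by
    have h1 : v - u ≤ 2 * (X : ℤ) := by omega
    have h2 : ((v - u : ℤ) : ℝ) ≤ ((2 * (X : ℤ) : ℤ) : ℝ) := by exact_mod_cast h1
    push_cast at h2
    exact h2
  set w : ℝ := 3 * √L with hw
  have hsL : 1 ≤ √L := by
    rw [← Real.sqrt_one]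
    exact Real.sqrt_le_sqrt hL1
  have hw3 : 3 ≤ w := by rw [hw]; linarith
  have hw2 : w ^ 2 = 9 * L := by
    rw [hw, mul_pow, Real.sq_sqrt (by linarith)]
    norm_num
  have hlw : Real.log w = Real.log 3 + Real.log L / 2 := by
    rw [hw, Real.log_mul (by norm_num) (by linarith), Real.log_sqrt (by linarith)]
  have hlL : ε * Real.log X ≤ Real.log L := by
    rw [← Real.log_rpow (by linarith)]
    exact Real.log_le_log (by linarith) hL
  have hlL2 : Real.log L ≤ Real.log 2 + Real.log X := by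
    rw [← Real.log_mul (by norm_num) (by linarith)]
    exact Real.log_le_log (by linarith) hL2
  have hlw1 : ε / 2 * Real.log X ≤ Real.log w := by
    rw [hlw]
    nlinarith
  have hlw2 : Real.log w ≤ 2 * Real.log X := by
    have h1 : Real.log 3 ≤ Real.log X := Real.log_le_log (by norm_num) hX3
    have h2 : Real.log 2 ≤ Real.log 3 := Real.log_le_log (by norm_num) (by norm_num)
    rw [hlw]
    linarith
  have hlogw : 1 < Real.log w := hlog3.trans_le (Real.log_le_log (by norm_num) hw3)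
  have hllw : |Real.log (Real.log w) - l| ≤ C1 := by
    have h1 : Real.log (Real.log w) ≤ Real.log 2 + l := by
      rw [hl, ← Real.log_mul (by norm_num) (by linarith)]
      exact Real.log_le_log (by linarith) hlw2
    have h2 : Real.log (ε / 2) + l ≤ Real.log (Real.log w) := by
      rw [hl, ← Real.log_mul (by positivity) (by linarith)]
      exact Real.log_le_log (by positivity) hlw1
    have h3 := neg_abs_le (Real.log (ε / 2))
    have h4 := abs_nonneg (Real.log (ε / 2))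
    rw [abs_le, hC1]
    constructor <;> linarith
  have hMw : |Sg (rho f) w - Real.log (Real.log w)| ≤ C0 := hC0 w hw3
  have hPsub : Pz z0 w ⊆ PR w := filter_subset _ _
  have hPprime : ∀ p ∈ Pz z0 w, p.Prime := fun p hp => (mem_filter.1 (hPsub hp)).2
  have hM' := hM w hw3
  have hMle : ∑ p ∈ Pz z0 w, ((Tk f κ p).card : ℝ) / p ≤ Sg (rho f) w := by
    unfold Sg
    refine (sum_le_sum fun p _ => ?_).trans (sum_le_sum_of_subset_of_nonneg hPsub
      fun p _ _ => by positivity)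
    exact div_le_div_of_nonneg_right (by exact_mod_cast Tk_card_le f κ p) (Nat.cast_nonneg _)
  have hM0 : 0 ≤ ∑ p ∈ Pz z0 w, ((Tk f κ p).card : ℝ) / p :=
    sum_nonneg fun p _ => div_nonneg (Nat.cast_nonneg _) (Nat.cast_nonneg _)
  have hR0 : 0 ≤ ∑ p ∈ Pz z0 w, ((Tk f κ p).card : ℝ) := sum_nonneg fun p _ => Nat.cast_nonneg _
  have hRw : ∑ p ∈ Pz z0 w, ((Tk f κ p).card : ℝ) ≤ k * w := by
    have h1 : ∀ p ∈ Pz z0 w, ((Tk f κ p).card : ℝ) ≤ k := by
      intro p hp
      have hpp : p.Prime := hPprime p hp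
      have h2 : rho f p ≤ D + B := by
        by_cases h : B < p
        · exact (hB p hpp h).trans (by omega)
        · have h3 : rho f p ≤ p := by
            unfold rho
            exact (card_filter_le _ _).trans (by rw [card_range])
          omega
      have h3 : ((Tk f κ p).card : ℝ) ≤ ((D + B : ℕ) : ℝ) := by
        exact_mod_cast (Tk_card_le f κ p).trans h2
      push_cast at h3
      rw [hk]
      linarith
    have h2 : ((Pz z0 w).card : ℝ) ≤ w := by
      have h3 : (Pz z0 w).card ≤ ⌊w⌋₊ := by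
        refine (card_le_card hPsub).trans ?_
        unfold PR
        refine (card_filter_le _ _).trans ?_
        rw [Nat.card_Icc]
        omega
      calc ((Pz z0 w).card : ℝ) ≤ (⌊w⌋₊ : ℝ) := by exact_mod_cast h3
        _ ≤ w := Nat.floor_le (by linarith)
    calc ∑ p ∈ Pz z0 w, ((Tk f κ p).card : ℝ) ≤ ∑ p ∈ Pz z0 w, k := sum_le_sum h1
      _ = (Pz z0 w).card * k := by rw [sum_const, nsmul_eq_mul]
      _ ≤ w * k := mul_le_mul_of_nonneg_right h2 (by linarith)
      _ = k * w := mul_comm _ _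
  have hsec := secondT (Pz z0 w) (Tk f κ) hPprime (fun p _ => Tk_sub f κ p) u v huv
  rw [← hLdef] at hsec
  set M := ∑ p ∈ Pz z0 w, ((Tk f κ p).card : ℝ) / p with hMd
  set R := ∑ p ∈ Pz z0 w, ((Tk f κ p).card : ℝ) with hRd
  set V := ∑ t ∈ Icc u v, (At (Pz z0 w) (Tk f κ) t - M) ^ 2 with hV
  have hMl2 : M ≤ l + (C1 + C0) := by
    have h1 := (abs_le.1 hMw).2
    have h2 := (abs_le.1 hllw).2
    linarith
  have hMw2 : M ≤ w + C0 := by
    have h6 := (abs_le.1 hMw).2
    have h7 : Real.log (Real.log w) ≤ w := by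
      have h8 := Real.log_le_sub_one_of_pos (by linarith : (0 : ℝ) < Real.log w)
      have h9 := Real.log_le_sub_one_of_pos (by linarith : (0 : ℝ) < w)
      linarith
    linarith
  have hVle : V ≤ L * (2 * l + C2) := by
    rw [hC2]
    exact second_step hk1 hC00 hL1 hw3 hw2 hM0 hMl2 hMw2 hR0 hRw hsec
  have hMθ : |M - θ * l| ≤ C' + C1 := by
    have e : M - θ * l = (M - θ * Real.log (Real.log w)) +
        θ * (Real.log (Real.log w) - l) := by ring
    rw [e]
    refine (abs_add_le _ _).trans (add_le_add hM' ?_)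
    rw [abs_mul, abs_of_nonneg hθ0]
    calc θ * |Real.log (Real.log w) - l| ≤ 1 * |Real.log (Real.log w) - l| :=
          mul_le_mul_of_nonneg_right hθ1 (abs_nonneg _)
      _ ≤ C1 := by rw [one_mul]; exact hllw
  have hcard : ((Icc u v).card : ℝ) = L + 1 := by
    rw [Int.card_Icc]
    have : (((v + 1 - u).toNat : ℕ) : ℤ) = v + 1 - u := Int.toNat_of_nonneg (by omega)
    have h2 : (((v + 1 - u).toNat : ℕ) : ℝ) = (((v + 1 - u : ℤ)) : ℝ) := by exact_mod_cast this
    rw [h2, hLdef]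
    push_cast
    ring
  have hterm : ∀ t ∈ (Icc u v).filter (fun t : ℤ => f.eval t ≠ 0),
      (((sp (κ.eval t) (f.eval t) : ℕ) : ℝ) - θ * l) ^ 2 ≤
        2 * (At (Pz z0 w) (Tk f κ) t - M) ^ 2 + 2 * C6 ^ 2 := by
    intro t ht
    rw [mem_filter, mem_Icc] at ht
    obtain ⟨h1, h2⟩ := sp_At f κ hz (w := w) (by linarith) ht.2
    have h0 := big_pf (Int.natAbs_ne_zero.2 ht.2) (w := w) (by linarith)
    set G := (((f.eval t).natAbs.primeFactors.filter (fun p : ℕ => ¬ (p : ℝ) ≤ w)).card : ℝ)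
      with hG
    have hG0 : 0 ≤ G := Nat.cast_nonneg _
    have htX : t.natAbs ≤ X := by omega
    have h3 := hK X t (by omega) htX
    have hn0 : (0 : ℝ) < (((f.eval t).natAbs : ℕ) : ℝ) := by
      exact_mod_cast Int.natAbs_pos.2 ht.2
    have h4 : Real.log (((f.eval t).natAbs : ℕ) : ℝ) ≤ Real.log K + D * Real.log X := by
      rw [← Real.log_pow, ← Real.log_mul (by linarith) (by positivity)]
      exact Real.log_le_log hn0 h3
    have h5 : G ≤ C5 := by
      have h6 : G * (ε / 2 * Real.log X) ≤ (Real.log K + D) * Real.log X := by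
        calc G * (ε / 2 * Real.log X) ≤ G * Real.log w := mul_le_mul_of_nonneg_left hlw1 hG0
          _ ≤ Real.log K + D * Real.log X := h0.trans h4
          _ ≤ (Real.log K + D) * Real.log X := by nlinarith
      rw [hC5, le_div_iff₀ (by positivity)]
      have h7 : G * (ε / 2) * Real.log X ≤ (Real.log K + D) * Real.log X := by linarith
      exact le_of_mul_le_mul_right h7 (by linarith)
    have e : ((sp (κ.eval t) (f.eval t) : ℕ) : ℝ) - θ * l =
        (At (Pz z0 w) (Tk f κ) t - M) + ((M - θ * l) +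
          (((sp (κ.eval t) (f.eval t) : ℕ) : ℝ) - At (Pz z0 w) (Tk f κ) t)) := by ring
    rw [e]
    apply sq_step
    refine (abs_add_le _ _).trans ?_
    rw [hC6]
    refine add_le_add hMθ ?_
    rw [abs_of_nonneg (by linarith)]
    linarith
  have hC2l : (2 * C2 + 4 * C6 ^ 2) ≤ (2 * C2 + 4 * C6 ^ 2) / l3 * l := by
    rw [div_mul_eq_mul_div, le_div_iff₀ hl30]
    exact mul_le_mul_of_nonneg_left hll (by positivity)
  calc ∑ t ∈ (Icc u v).filter (fun t : ℤ => f.eval t ≠ 0),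
        (((sp (κ.eval t) (f.eval t) : ℕ) : ℝ) - θ * l) ^ 2
      ≤ ∑ t ∈ (Icc u v).filter (fun t : ℤ => f.eval t ≠ 0),
        (2 * (At (Pz z0 w) (Tk f κ) t - M) ^ 2 + 2 * C6 ^ 2) := sum_le_sum hterm
    _ ≤ ∑ t ∈ Icc u v, (2 * (At (Pz z0 w) (Tk f κ) t - M) ^ 2 + 2 * C6 ^ 2) :=
        sum_le_sum_of_subset_of_nonneg (filter_subset _ _) fun t _ _ => by positivity
    _ = 2 * V + (L + 1) * (2 * C6 ^ 2) := by
        rw [sum_add_distrib, sum_const, nsmul_eq_mul, hcard, ← mul_sum]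
    _ ≤ 2 * (L * (2 * l + C2)) + 2 * L * (2 * C6 ^ 2) := by
        have h1 : (L + 1) * (2 * C6 ^ 2) ≤ 2 * L * (2 * C6 ^ 2) :=
          mul_le_mul_of_nonneg_right (by linarith) (by positivity)
        linarith
    _ = L * (4 * l + (2 * C2 + 4 * C6 ^ 2)) := by ring
    _ ≤ L * (4 * l + (2 * C2 + 4 * C6 ^ 2) / l3 * l) := by
        apply mul_le_mul_of_nonneg_left _ (by linarith)
        linarith
    _ = (4 + (2 * C2 + 4 * C6 ^ 2) / l3) * L * l := by ring

/-- the small primes -/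
lemma Sg_split (r : ℕ → ℕ) (z0 : ℕ) (w : ℝ) :
    |∑ p ∈ Pz z0 w, (r p : ℝ) / p - Sg r w| ≤ ∑ p ∈ range (z0 + 1), (r p : ℝ) / p := by
  classical
  unfold Sg Pz
  have h := Finset.sum_filter_add_sum_filter_not (PR w) (fun p => z0 < p)
    (fun p => (r p : ℝ) / p)
  rw [← h, sub_add_cancel_left, abs_neg, abs_of_nonneg (sum_nonneg fun p _ => by positivity)]
  refine sum_le_sum_of_subset_of_nonneg ?_ fun p _ _ => by positivity
  intro p hp
  rw [mem_filter] at hp
  rw [mem_range]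
  omega

theorem s_TKV (h1 : S_UP02) (h2 : S_SQ) : S_TKV := by
  classical
  intro f κ ε hf hd hκ hε
  obtain ⟨C0, hC00, hC0⟩ := Pool.Agent.H474R2.GE.mertens_rho f hf hd
  by_cases hsq : IsSquare (AdjoinRoot.mk (f.map (Int.castRingHom ℚ)) (κ.map (Int.castRingHom ℚ)))
  · obtain ⟨z1, hz1⟩ := h2 f κ hf hd hκ hsq
    set z0 := max 2 z1 with hz0
    have hT : ∀ w : ℝ, ∀ p ∈ Pz z0 w, (Tk f κ p).card = rho f p := by
      intro w p hp
      have hpp : p.Prime := (mem_filter.1 (mem_filter.1 hp).1).2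
      have hpz : z1 < p := lt_of_le_of_lt (le_max_right _ _) (mem_filter.1 hp).2
      unfold Tk rho
      congr 1
      apply Finset.filter_congr
      intro ν _
      constructor
      · exact fun h => h.1
      · exact fun h => ⟨h, hz1 p hpp hpz _ h⟩
    obtain ⟨C, hC⟩ := tk_main f κ hf hd z0 (le_max_left _ _) 1
      (∑ p ∈ range (z0 + 1), (rho f p : ℝ) / p + C0) zero_le_one le_rfl
      (by positivity) (fun w hw => by
        rw [sum_congr rfl fun p hp => by rw [hT w p hp], one_mul]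
        have e1 := Sg_split (rho f) z0 w
        have e2 := hC0 w hw
        have e3 : ∑ p ∈ Pz z0 w, (rho f p : ℝ) / p - Real.log (Real.log w) =
          (∑ p ∈ Pz z0 w, (rho f p : ℝ) / p - Sg (rho f) w) +
            (Sg (rho f) w - Real.log (Real.log w)) := by ring
        rw [e3]
        exact (abs_add_le _ _).trans (add_le_add e1 e2)) ε hε
    refine ⟨C, fun X u v hX hu hv hL => ⟨fun _ => ?_, fun h => absurd hsq h⟩⟩
    have := hC X u v hX hu hv hL
    simpa only [one_mul] using this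
  · obtain ⟨z1, hz1⟩ := h1 f κ 0 hf hd hκ hsq
    obtain ⟨B, hB⟩ := large_nd hf hd hκ
    set z0 := max 2 (max z1 B) with hz0
    obtain ⟨C3, hC3⟩ := hz1 z0 ((le_max_left _ _).trans (le_max_right _ _))
    have hT : ∀ w : ℝ, ∀ p ∈ Pz z0 w, ((Tk f κ p).card : ℝ) / p =
        1 / 2 * ((rho f p : ℝ) / p) + 1 / 2 * bw f κ 1 0 p := by
      intro w p hp
      have hpp : p.Prime := (mem_filter.1 (mem_filter.1 hp).1).2
      have hpz : B < p := lt_of_le_of_lt ((le_max_right _ _).trans (le_max_right _ _))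
        (mem_filter.1 hp).2
      have hJ : ∀ ν : ℕ, (p : ℤ) ∣ f.eval (ν : ℤ) →
          jacobiSym (κ.eval (ν : ℤ)) p = 1 ∨ jacobiSym (κ.eval (ν : ℤ)) p = -1 := by
        intro ν hν
        have h1 := hB p hpz (ν : ℤ) hν
        apply jacobiSym.eq_one_or_neg_one
        rw [Int.gcd_comm]
        exact (Int.isCoprime_iff_gcd_eq_one (m := (p : ℤ)) (n := κ.eval (ν : ℤ))).1
          ((Nat.prime_iff_prime_int.1 hpp).coprime_iff_not_dvd.2 h1)
      have hcard : ((Tk f κ p).card : ℝ) =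
          ∑ ν ∈ (range p).filter (fun ν : ℕ => (p : ℤ) ∣ f.eval (ν : ℤ)),
            (1 / 2 + 1 / 2 * Jr (κ.eval (ν : ℤ)) p) := by
        unfold Tk
        rw [← Finset.filter_filter, Finset.card_eq_sum_ones, Finset.sum_filter]
        push_cast
        refine Finset.sum_congr rfl fun ν hν => ?_
        have hν' := (mem_filter.1 hν).2
        unfold Jr
        rcases hJ ν hν' with h | h <;> rw [h] <;> norm_num
      rw [hcard, Finset.sum_add_distrib, Finset.sum_const, nsmul_eq_mul, ← Finset.mul_sum]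
      unfold bw rho
      push_cast
      ring
    obtain ⟨C, hC⟩ := tk_main f κ hf hd z0 (le_max_left _ _) (1 / 2)
      (1 / 2 * (∑ p ∈ range (z0 + 1), (rho f p : ℝ) / p + C0) + 1 / 2 * |C3|) (by norm_num)
      (by norm_num) (by positivity) (fun w hw => by
        rw [sum_congr rfl fun p hp => hT w p hp, Finset.sum_add_distrib, ← Finset.mul_sum,
          ← Finset.mul_sum]
        have e1 := Sg_split (rho f) z0 w
        have e2 := hC0 w hw
        have e4 : |∑ p ∈ Pz z0 w, bw f κ 1 0 p| ≤ |C3| := by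
          have hPS : Pz z0 w = PS z0 ⌊w⌋₊ := by
            ext p
            rw [Pz, mem_filter, PR, mem_filter, mem_Icc, PS, mem_filter, mem_Ioc]
            constructor
            · rintro ⟨⟨⟨a, b⟩, c⟩, d⟩
              exact ⟨⟨d, b⟩, c⟩
            · rintro ⟨⟨a, b⟩, c⟩
              exact ⟨⟨⟨c.one_lt.le, b⟩, c⟩, a⟩
          rw [hPS]
          by_cases hzw : z0 < ⌊w⌋₊
          · exact (hC3 _ hzw).trans (le_abs_self _)
          · have : PS z0 ⌊w⌋₊ = ∅ := by
              unfold PS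
              rw [Finset.Ioc_eq_empty (by omega), Finset.filter_empty]
            rw [this, Finset.sum_empty, abs_zero]
            exact abs_nonneg _
        have e3 : 1 / 2 * ∑ p ∈ Pz z0 w, (rho f p : ℝ) / p + 1 / 2 * ∑ p ∈ Pz z0 w, bw f κ 1 0 p -
            1 / 2 * Real.log (Real.log w) =
          1 / 2 * ((∑ p ∈ Pz z0 w, (rho f p : ℝ) / p - Sg (rho f) w) +
            (Sg (rho f) w - Real.log (Real.log w))) + 1 / 2 * ∑ p ∈ Pz z0 w, bw f κ 1 0 p := by
          ring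
        rw [e3]
        refine (abs_add_le _ _).trans (add_le_add ?_ ?_)
        · rw [abs_mul, abs_of_nonneg (by norm_num : (0 : ℝ) ≤ 1 / 2)]
          exact mul_le_mul_of_nonneg_left ((abs_add_le _ _).trans (add_le_add e1 e2))
            (by norm_num)
        · rw [abs_mul, abs_of_nonneg (by norm_num : (0 : ℝ) ≤ 1 / 2)]
          exact mul_le_mul_of_nonneg_left e4 (by norm_num)) ε hε
    refine ⟨C, fun X u v hX hu hv hL => ⟨fun h => absurd h hsq, fun _ => ?_⟩⟩
    have := hC X u v hX hu hv hL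
    have e : Real.log (Real.log X) / 2 = 1 / 2 * Real.log (Real.log X) := by ring
    rw [e]
    exact this

end Pool.Agent.L7h46.FT
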